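import Pool.Agent.Helper26.MCE.GoalsB

/-!
# Project MCE (MP_d8224a_co), packet MF
-/

set_option autoImplicit false

namespace Pool.Agent.Helper27.MCE

open Finset Pool.Agent.Helper87.MC Pool.Agent.Helper26.MCE

open Classical in
theorem goalMF (h1 : G_POS) (h2 : G_ONE) : G_MF := by
  intro G _ _ s V _ D K f B ρ ρh t L2 c ty m lam hC hF hρ j hj d hd k v hty hcl I
  have hs0 : 0 < s := by omega
  obtain ⟨-, p2, -, -⟩ := h1 G s V K c hC.anti hF.ref
  set σ : ℝ := ∑ l ∈ range s, ρ l with hσ
  have hσ0 : ρ 0 ≤ σ := Finset.single_le_sum (f := ρ) (fun i _ => (hρ i).le) (by simpa using hs0)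
  have hσnn : 0 ≤ σ := (hρ 0).le.trans hσ0
  -- `D` is not everything
  have hNF : ∀ x, NF D (K 0) x := by
    intro x
    unfold lab full at hd
    rw [Finset.mem_sdiff, Finset.mem_filter, Finset.mem_filter] at hd
    obtain ⟨⟨hdD, _⟩, h4⟩ := hd
    have h5 : ∃ h ∈ K j, d + h ∉ D := by
      by_contra hcon
      push Not at hcon
      exact h4 ⟨hdD, hcon⟩
    obtain ⟨h, -, hh⟩ := h5
    refine ⟨d + h - x, by rw [hC.K0]; exact AddSubgroup.mem_top _, ?_⟩
    have e : x + (d + h - x) = d + h := by abel
    rw [e]
    exact hh
  set l0 : Fin s := ⟨0, hs0⟩ with hl0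
  -- positions do not change
  have hpos : ∀ (ω : Fin s × V → G) (u w : V) (x : G), c 1 w ≠ c 1 u →
      pos c (Function.update ω (l0, c ((l0 : ℕ) + 1) u) x) w = pos c ω w := by
    intro ω u w x hne
    exact p2 ω l0 (c ((l0 : ℕ) + 1) u) x w (by simpa [hl0] using hne)
  let E : Finset (Fin k) → (Fin s × V → G) → Prop := fun I ω => ∀ a ∈ I, ∃ v',
    (∃ a', a < a' ∧ c 1 v' = c 1 (v a')) ∧ Cov D c ω v' (pos c ω (v a) + d)
  have main : ∀ I : Finset (Fin k), (((Om s V K).filter fun ω => E I ω).card : ℝ) ≤
      σ ^ I.card * (Om s V K).card := by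
    intro I
    induction I using Finset.induction_on_min with
    | empty =>
      rw [Finset.card_empty, pow_zero, one_mul]
      exact_mod_cast Finset.card_filter_le _ _
    | insert a₀ I ha₀ ih =>
      have ha₀' : a₀ ∉ I := fun h => lt_irrefl _ (ha₀ a₀ h)
      rw [Finset.card_insert_of_notMem ha₀', pow_succ']
      set u := v a₀ with hu
      -- the event for `I` does not depend on the coordinate
      have hE : ∀ (ω : Fin s × V → G) (x : G),
          (E I ω ↔ E I (Function.update ω (l0, c ((l0 : ℕ) + 1) u) x)) := by
        intro ω x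
        have hva : ∀ a ∈ I, pos c (Function.update ω (l0, c ((l0 : ℕ) + 1) u) x) (v a) =
            pos c ω (v a) := by
          intro a ha
          exact hpos ω u (v a) x (hcl a a₀ (ne_of_gt (ha₀ a ha)))
        have hw : ∀ a ∈ I, ∀ w, (∃ a', a < a' ∧ c 1 w = c 1 (v a')) →
            pos c (Function.update ω (l0, c ((l0 : ℕ) + 1) u) x) w = pos c ω w := by
          rintro a ha w ⟨a', ha', hw⟩
          apply hpos ω u w x
          rw [hw]
          exact hcl a' a₀ (ne_of_gt ((ha₀ a ha).trans ha'))
        constructor
        · intro h a ha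
          obtain ⟨w, hw1, hw2⟩ := h a ha
          refine ⟨w, hw1, ?_⟩
          unfold Cov at hw2 ⊢
          rw [hva a ha, hw a ha w hw1]
          exact hw2
        · intro h a ha
          obtain ⟨w, hw1, hw2⟩ := h a ha
          refine ⟨w, hw1, ?_⟩
          unfold Cov at hw2 ⊢
          rw [hva a ha, hw a ha w hw1] at hw2
          exact hw2
      -- one witness
      have hone : ∀ w : V, c 1 w ≠ c 1 u →
          ((Om s V K).filter fun ω => E I ω ∧ Cov D c ω w (pos c ω u + d)).card *
            Nat.card (K 0) ≤ f 0 * ((Om s V K).filter (E I)).card := by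
        intro w hw
        have h3 := (h2 G s V D K c f l0 u (E I) (fun ω => pos c ω w - d) hC.anti hF.ref
          (fun x hx => hC.fib_le l0 l0.2.le x hx)
          (fun ω _ x _ => ⟨hE ω x, by
            show pos c _ w - d = pos c ω w - d
            rw [hpos ω u w x hw]⟩)).2 (fun ω _ _ => hNF _)
        have e1 : ((Om s V K).filter fun ω => E I ω ∧ Cov D c ω w (pos c ω u + d)) =
            ((Om s V K).filter fun ω => E I ω ∧ pos c ω u - (pos c ω w - d) ∈ D) := by
          apply Finset.filter_congr
          intro ω _
          unfold Cov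
          have e2 : pos c ω u + d - pos c ω w = pos c ω u - (pos c ω w - d) := by abel
          rw [e2]
        rw [e1]
        convert h3
      have hK0 : (0 : ℝ) < Nat.card (K 0) := by exact_mod_cast Nat.card_pos
      have hone' : ∀ w : V, c 1 w ≠ c 1 u →
          (((Om s V K).filter fun ω => E I ω ∧ Cov D c ω w (pos c ω u + d)).card : ℝ) ≤
            f 0 / Nat.card (K 0) * ((Om s V K).filter (E I)).card := by
        intro w hw
        have h3 : ((((Om s V K).filter fun ω => E I ω ∧ Cov D c ω w (pos c ω u + d)).card *
            Nat.card (K 0) : ℕ) : ℝ) ≤ ((f 0 * ((Om s V K).filter (E I)).card : ℕ) : ℝ) := by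
          exact_mod_cast hone w hw
        push_cast at h3
        rw [div_mul_eq_mul_div, le_div_iff₀ hK0]
        exact h3
      -- sum over the witnesses
      have hsub : ((Om s V K).filter fun ω => E (insert a₀ I) ω) ⊆
          (univ.filter fun w => c 1 w ≠ c 1 u).biUnion
            (fun w => (Om s V K).filter fun ω => E I ω ∧ Cov D c ω w (pos c ω u + d)) := by
        intro ω hω
        rw [Finset.mem_filter] at hω
        obtain ⟨w, ⟨a', ha', hw⟩, hw2⟩ := hω.2 a₀ (Finset.mem_insert_self _ _)
        rw [Finset.mem_biUnion]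
        refine ⟨w, ?_, ?_⟩
        · rw [Finset.mem_filter]
          refine ⟨Finset.mem_univ _, ?_⟩
          rw [hw]
          exact hcl a' a₀ (ne_of_gt ha')
        · rw [Finset.mem_filter]
          exact ⟨hω.1, fun a ha => hω.2 a (Finset.mem_insert_of_mem ha), hw2⟩
      have hcard : (((Om s V K).filter fun ω => E (insert a₀ I) ω).card : ℝ) ≤
          ((univ.filter fun w => c 1 w ≠ c 1 u).card : ℝ) *
            (f 0 / Nat.card (K 0) * ((Om s V K).filter (E I)).card) := by
        have h3 := (Finset.card_le_card hsub).trans Finset.card_biUnion_le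
        have h4 : (((Om s V K).filter fun ω => E (insert a₀ I) ω).card : ℝ) ≤
            ∑ w ∈ univ.filter fun w => c 1 w ≠ c 1 u,
              (((Om s V K).filter fun ω => E I ω ∧ Cov D c ω w (pos c ω u + d)).card : ℝ) := by
          exact_mod_cast h3
        refine h4.trans ?_
        rw [← nsmul_eq_mul]
        apply Finset.sum_le_card_nsmul
        intro w hw
        exact hone' w (Finset.mem_filter.1 hw).2
      have hstep : ((univ.filter fun w => c 1 w ≠ c 1 u).card : ℝ) * (f 0 / Nat.card (K 0)) ≤
          σ := by
        rcases hF.up u 0 hs0 with h | h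
        · have h3 : ((univ.filter fun w => c 1 w ≠ c 1 u).card : ℝ) ≤
              ((univ.filter fun v' => c 0 v' = c 0 u).card : ℝ) := by
            have : (univ.filter fun w => c 1 w ≠ c 1 u) ⊆
                (univ.filter fun v' => c 0 v' = c 0 u) := by
              intro w _
              rw [Finset.mem_filter]
              exact ⟨Finset.mem_univ _, hF.c0 _ _⟩
            exact_mod_cast Finset.card_le_card this
          have h4 : ((univ.filter fun w => c 1 w ≠ c 1 u).card : ℝ) * f 0 ≤
              ρ 0 * Nat.card (K 0) := by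
            refine le_trans ?_ h
            exact mul_le_mul_of_nonneg_right h3 (by positivity)
          have h5 : ((univ.filter fun w => c 1 w ≠ c 1 u).card : ℝ) * (f 0 / Nat.card (K 0)) ≤
              ρ 0 := by
            rw [← mul_div_assoc, div_le_iff₀ hK0]
            exact h4
          exact h5.trans hσ0
        · have h3 : (univ.filter fun w => c 1 w ≠ c 1 u) = ∅ := by
            rw [Finset.filter_eq_empty_iff]
            intro w _ hne
            exact hne (h w (hF.c0 _ _))
          rw [h3]
          simpa using hσnn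
      calc (((Om s V K).filter fun ω => E (insert a₀ I) ω).card : ℝ)
          ≤ ((univ.filter fun w => c 1 w ≠ c 1 u).card : ℝ) *
            (f 0 / Nat.card (K 0) * ((Om s V K).filter (E I)).card) := hcard
        _ = ((univ.filter fun w => c 1 w ≠ c 1 u).card : ℝ) * (f 0 / Nat.card (K 0)) *
            ((Om s V K).filter (E I)).card := by ring
        _ ≤ σ * ((Om s V K).filter (E I)).card :=
            mul_le_mul_of_nonneg_right hstep (by positivity)
        _ ≤ σ * (σ ^ I.card * (Om s V K).card) := mul_le_mul_of_nonneg_left ih hσnn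
        _ = σ * σ ^ I.card * (Om s V K).card := by ring
  exact main I

end Pool.Agent.Helper27.MCE
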