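import Pool.Agent.Helper26.MCE.GoalsB

/-!
# Project MCE (MP_d8224a_co), packet ONE
-/

set_option autoImplicit false

namespace Pool.Agent.Helper27.MCE

open Finset Pool.Agent.Helper87.MC Pool.Agent.Helper26.MCE

section

variable {G : Type} [AddCommGroup G] [Fintype G]

omit [Fintype G] in
theorem NF_congr {D : Finset G} {K : AddSubgroup G} {x y : G} (h : y - x ∈ K) (hx : NF D K x) :
    NF D K y := by
  obtain ⟨k, hk, hkD⟩ := hx
  refine ⟨k - (y - x), K.sub_mem hk h, ?_⟩
  have e : y + (k - (y - x)) = x + k := by abel
  rw [e]
  exact hkD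

open Classical in
/-- The number of the `x ∈ K` with `z - x ∈ D`. -/
theorem card_sub_le (D : Finset G) (K : AddSubgroup G) (z : G) :
    ((univ.filter fun x => x ∈ K).filter fun x => z - x ∈ D).card ≤ (fib D K z).card := by
  apply Finset.card_le_card_of_injOn (fun x => z - x)
  · intro x hx
    simp only [Finset.coe_filter, Finset.mem_filter, Finset.mem_univ, true_and,
      Set.mem_ofPred_eq] at hx
    simp only [fib, Finset.coe_filter, Set.mem_ofPred_eq]
    refine ⟨hx.2, ?_⟩
    have e : z - x - z = -x := by abel
    rw [e]
    exact K.neg_mem hx.1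
  · intro x _ y _ h
    exact sub_right_injective h

open Classical in
/-- The number of the `x ∈ K` with `z + x ∈ D`. -/
theorem card_add_le (D : Finset G) (K : AddSubgroup G) (z : G) :
    ((univ.filter fun x => x ∈ K).filter fun x => z + x ∈ D).card ≤ (fib D K z).card := by
  apply Finset.card_le_card_of_injOn (fun x => z + x)
  · intro x hx
    simp only [Finset.coe_filter, Finset.mem_filter, Finset.mem_univ, true_and,
      Set.mem_ofPred_eq] at hx
    simp only [fib, Finset.coe_filter, Set.mem_ofPred_eq]
    refine ⟨hx.2, ?_⟩
    have e : z + x - z = x := by abel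
    rw [e]
    exact hx.1
  · intro x _ y _ h
    exact add_right_injective _ h

end

open Classical in
theorem goalONE (h1 : G_RES) (h2 : G_POS) : G_ONE := by
  intro G _ _ s V _ D K c f l v S1 y hK hc hf hS
  obtain ⟨-, -, p3, -⟩ := h2 G s V K c hK hc
  have hcard : (univ.filter fun x => x ∈ K l).card = Nat.card (K l) := by
    rw [Nat.card_eq_fintype_card, Fintype.card_subtype]
  have hOm : ∀ ω ∈ Om s V K, ω (l, c (l + 1) v) ∈ K l := by
    intro ω hω
    unfold Om at hω
    rw [Fintype.mem_piFinset] at hω
    have := hω (l, c (l + 1) v)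
    simpa using this
  constructor
  · intro hNF
    have h3 := h1 (Fin s × V) G (fun i => univ.filter fun x => x ∈ K i.1) (l, c (l + 1) v)
      S1 (fun ω => y ω - pos c ω v ∈ D) (f l)
      (fun ω hω x hx => (hS ω hω x (by simpa using hx)).1) ?_
    · simp only [hcard] at h3
      convert h3 using 3 <;>
      · ext ω
        simp only [Finset.mem_filter, Om, Fintype.mem_piFinset]
    · intro ω hω hS1
      set a : G := pos c ω v - ω (l, c (l + 1) v) with ha
      have e1 : ((univ.filter fun x => x ∈ K l).filter fun x =>
          y (Function.update ω (l, c (l + 1) v) x) -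
            pos c (Function.update ω (l, c (l + 1) v) x) v ∈ D) ⊆
          ((univ.filter fun x => x ∈ K l).filter fun x => (y ω - a) - x ∈ D) := by
        intro x hx
        rw [Finset.mem_filter] at hx ⊢
        refine ⟨hx.1, ?_⟩
        have hxK : x ∈ K l := by simpa using hx.1
        have h4 := hx.2
        rw [p3 ω l x v, (hS ω hω x hxK).2] at h4
        have e2 : y ω - (pos c ω v - ω (l, c (l + 1) v) + x) = y ω - a - x := by
          rw [ha]; abel
        rw [e2] at h4
        exact h4
      have e4 : NF D (K l) (y ω - a) → _ := fun h =>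
        (Finset.card_le_card e1).trans ((card_sub_le D (K l) (y ω - a)).trans (hf _ h))
      suffices h : NF D (K l) (y ω - a) by
        refine le_trans (le_of_eq ?_) (e4 h)
        congr 1
        ext x
        simp only [Finset.mem_filter]
      refine NF_congr ?_ (hNF ω hω hS1)
      have e3 : y ω - a - (y ω - pos c ω v) = ω (l, c (l + 1) v) := by
        rw [ha]; abel
      rw [e3]
      exact hOm ω hω
  · intro hNF
    have h3 := h1 (Fin s × V) G (fun i => univ.filter fun x => x ∈ K i.1) (l, c (l + 1) v)
      S1 (fun ω => pos c ω v - y ω ∈ D) (f l)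
      (fun ω hω x hx => (hS ω hω x (by simpa using hx)).1) ?_
    · simp only [hcard] at h3
      convert h3 using 3 <;>
      · ext ω
        simp only [Finset.mem_filter, Om, Fintype.mem_piFinset]
    · intro ω hω hS1
      set a : G := pos c ω v - ω (l, c (l + 1) v) with ha
      have e1 : ((univ.filter fun x => x ∈ K l).filter fun x =>
          pos c (Function.update ω (l, c (l + 1) v) x) v -
            y (Function.update ω (l, c (l + 1) v) x) ∈ D) ⊆
          ((univ.filter fun x => x ∈ K l).filter fun x => (a - y ω) + x ∈ D) := by
        intro x hx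
        rw [Finset.mem_filter] at hx ⊢
        refine ⟨hx.1, ?_⟩
        have hxK : x ∈ K l := by simpa using hx.1
        have h4 := hx.2
        rw [p3 ω l x v, (hS ω hω x hxK).2] at h4
        have e2 : pos c ω v - ω (l, c (l + 1) v) + x - y ω = a - y ω + x := by
          rw [ha]; abel
        rw [e2] at h4
        exact h4
      have e4 : NF D (K l) (a - y ω) → _ := fun h =>
        (Finset.card_le_card e1).trans ((card_add_le D (K l) (a - y ω)).trans (hf _ h))
      suffices h : NF D (K l) (a - y ω) by
        refine le_trans (le_of_eq ?_) (e4 h)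
        congr 1
        ext x
        simp only [Finset.mem_filter]
      refine NF_congr ?_ (hNF ω hω hS1)
      have e3 : a - y ω - (pos c ω v - y ω) = -ω (l, c (l + 1) v) := by
        rw [ha]; abel
      rw [e3]
      exact (K l).neg_mem (hOm ω hω)

end Pool.Agent.Helper27.MCE
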